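import Pool.Agent.X182.CD.Space

/-!
# Discrete subsets of the square have bounded rank
-/

set_option autoImplicit false

open Set Topology Cardinal Filter

namespace Pool.Agent.X182.CD

open Pool.Agent.H960R3.DL

variable {L : ℕ → Type} [∀ n, LinearOrder (L n)]
variable {δ : Ordinal.{0}} {G : Ordinal.{0} → ∀ n, L n}

/-- the ranks of the first coordinates are bounded -/
def Bd (E : Set (Qt δ G × Qt δ G)) : Prop := ∃ ρ < δ, ∀ d ∈ E, Lo G ρ d.1.1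

theorem Bd.mono {E E' : Set (Qt δ G × Qt δ G)} (h : Bd E') (hE : E ⊆ E') : Bd E := by
  obtain ⟨ρ, h1, h2⟩ := h
  exact ⟨ρ, h1, fun d hd => h2 d (hE hd)⟩

theorem Bd.union (hG : ∀ ξ < δ, ∀ η < ξ, ∀ᶠ n in atTop, G η n < G ξ n)
    {E E' : Set (Qt δ G × Qt δ G)} (h : Bd E) (h' : Bd E') : Bd (E ∪ E') := by
  obtain ⟨ρ, h1, h2⟩ := h
  obtain ⟨ρ', h1', h2'⟩ := h'
  refine ⟨max ρ ρ', max_lt h1 h1', ?_⟩
  rintro d (hd | hd)
  · exact Lo.mono hG (le_max_left _ _) (max_lt h1 h1') (h2 d hd)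
  · exact Lo.mono hG (le_max_right _ _) (max_lt h1 h1') (h2' d hd)

theorem Bd.biUnion (hG : ∀ ξ < δ, ∀ η < ξ, ∀ᶠ n in atTop, G η n < G ξ n)
    (hδ : 0 < δ) {ι : Type*} (t : Finset ι) (E : ι → Set (Qt δ G × Qt δ G))
    (h : ∀ i ∈ t, Bd (E i)) : Bd (⋃ i ∈ t, E i) := by
  classical
  induction t using Finset.induction_on with
  | empty => exact ⟨0, hδ, by simp⟩
  | insert a t ha ih =>
    rw [Finset.set_biUnion_insert]
    exact Bd.union hG (h a (Finset.mem_insert_self _ _))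
      (ih fun i hi => h i (Finset.mem_insert_of_mem hi))

theorem Bd.iUnion (hG : ∀ ξ < δ, ∀ η < ξ, ∀ᶠ n in atTop, G η n < G ξ n)
    (hU : ∀ h : ∀ n, L n, ∃ ξ < δ, ∃ᶠ n in atTop, h n ≤ G ξ n)
    {T : Type*} (hT : Sm L T) (E : T → Set (Qt δ G × Qt δ G)) (h : ∀ t, Bd (E t)) :
    Bd (⋃ t, E t) := by
  choose ρ h1 h2 using h
  obtain ⟨ρ', h3, h4⟩ := small_bdd hG hU hT ρ h1
  refine ⟨ρ', h3, fun d hd => ?_⟩
  obtain ⟨t, ht⟩ := mem_iUnion.1 hd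
  exact Lo.mono hG (h4 t) h3 (h2 t d ht)

/-- points of `D` have neighbourhoods which contain no other point of `D` -/
def Disc {X : Type*} [TopologicalSpace X] (D : Set X) : Prop :=
  ∀ d ∈ D, ∃ U, IsOpen U ∧ d ∈ U ∧ ∀ d' ∈ D, d' ∈ U → d' = d

theorem sm_pair (hL : Big L) : Sm L (Finset (Σ n, L n) × Finset (Σ n, L n)) := by
  have hne : ∀ n, Nonempty (L n) := fun n => ⟨(hL n ∅ (Or.inl (by simp))).choose⟩
  have hinf : Infinite (Σ n, L n) := by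
    have hmax : NoMaxOrder (L 0) := ⟨fun a => by
      obtain ⟨b, hb⟩ := hL 0 {a} (Or.inl (by
        rw [mk_singleton]
        exact one_lt_aleph0.le.trans aleph0_le_continuum))
      exact ⟨b, hb a rfl⟩⟩
    have := hne 0
    have : Infinite (L 0) := NoMaxOrder.infinite
    exact Infinite.of_injective (fun a : L 0 => (⟨0, a⟩ : Σ n, L n)) sigma_mk_injective
  have hcard : #(Finset (Σ n, L n) × Finset (Σ n, L n)) ≤ #(Σ n, L n) := by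
    rw [mk_prod, lift_id, mk_finset_of_infinite]
    exact (mul_eq_self (aleph0_le_mk _)).le
  obtain ⟨e⟩ := hcard
  exact sm_of_inj hL e e.injective

theorem bounded_fst (hL : Big L)
    (hG : ∀ ξ < δ, ∀ η < ξ, ∀ᶠ n in atTop, G η n < G ξ n)
    (hU : ∀ h : ∀ n, L n, ∃ ξ < δ, ∃ᶠ n in atTop, h n ≤ G ξ n)
    (D : Set (Qt δ G × Qt δ G)) (hD : Disc D) : Bd D := by
  classical
  have hne : ∀ n, Nonempty (L n) := fun n => ⟨(hL n ∅ (Or.inl (by simp))).choose⟩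
  obtain ⟨ξ0, hξ0, -⟩ := hU (fun n => (hne n).some)
  have hδ : 0 < δ := lt_of_le_of_lt bot_le hξ0
  have hempty : Bd (∅ : Set (Qt δ G × Qt δ G)) := ⟨0, hδ, by simp⟩
  by_contra hcon
  -- a subset on which the neighbourhoods of the second coordinates do not matter
  obtain ⟨D', hD'D, hD'1, hD'2⟩ : ∃ D' ⊆ D, ¬ Bd D' ∧ ∀ i ∈ D', ∀ (t : Finset Ordinal.{0})
      (F : Finset (Qt δ G)), InW δ G t i.2.1 → i.2 ∉ F →
      Bd {j ∈ D' | ¬ (InW δ G t j.2.1 ∧ j.2 ∉ F)} := by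
    by_cases hA : ∃ y, ¬ Bd {d ∈ D | d.2 = y}
    · obtain ⟨y, hy⟩ := hA
      refine ⟨{d ∈ D | d.2 = y}, sep_subset _ _, hy, fun i hi t F ht hF => ?_⟩
      refine hempty.mono ?_
      rintro j ⟨hj, hj'⟩
      apply hj'
      rw [hj.2, ← hi.2]
      exact ⟨ht, hF⟩
    · push Not at hA
      by_cases hZ : ∃ ζ, ζ < δ ∧ ¬ Bd {d ∈ D | Lo G ζ d.2.1}
      · obtain ⟨ζ0, ⟨hζ0, hζ0'⟩, hmin⟩ := WellFounded.has_min (wellFounded_lt (α := Ordinal.{0}))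
          {ζ | ζ < δ ∧ ¬ Bd {d ∈ D | Lo G ζ d.2.1}} hZ
        refine ⟨{d ∈ D | Lo G ζ0 d.2.1}, sep_subset _ _, hζ0', fun i hi t F ht hF => ?_⟩
        have h1 : Bd (⋃ ζ ∈ t, {d ∈ D | Lo G ζ d.2.1}) := by
          refine Bd.biUnion hG hδ t _ fun ζ hζ => ?_
          obtain ⟨h2, h3⟩ := ht ζ hζ
          by_contra h4
          have h5 : ζ < ζ0 := by
            by_contra h6
            rw [not_lt] at h6
            exact h3 (Lo.mono hG h6 h2 hi.2)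
          exact hmin ζ ⟨h2, h4⟩ h5
        have h2 : Bd (⋃ y ∈ F, {d ∈ D | d.2 = y}) := Bd.biUnion hG hδ F _ fun y _ => hA y
        refine (Bd.union hG h1 h2).mono ?_
        rintro j ⟨hj, hj'⟩
        rw [not_and_or, not_not] at hj'
        rcases hj' with hj' | hj'
        · rw [InW] at hj'
          push Not at hj'
          obtain ⟨ζ, hζ, h⟩ := hj'
          exact Or.inl (mem_iUnion₂.2 ⟨ζ, hζ, hj.1, h (ht ζ hζ).1⟩)
        · exact Or.inr (mem_iUnion₂.2 ⟨j.2, hj', hj.1, rfl⟩)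
      · push Not at hZ
        refine ⟨D, Subset.rfl, hcon, fun i hi t F ht hF => ?_⟩
        have h1 : Bd (⋃ ζ ∈ t, {d ∈ D | Lo G ζ d.2.1}) :=
          Bd.biUnion hG hδ t _ fun ζ hζ => hZ ζ (ht ζ hζ).1
        have h2 : Bd (⋃ y ∈ F, {d ∈ D | d.2 = y}) := Bd.biUnion hG hδ F _ fun y _ => hA y
        refine (Bd.union hG h1 h2).mono ?_
        rintro j ⟨hj, hj'⟩
        rw [not_and_or, not_not] at hj'
        rcases hj' with hj' | hj'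
        · rw [InW] at hj'
          push Not at hj'
          obtain ⟨ζ, hζ, h⟩ := hj'
          exact Or.inl (mem_iUnion₂.2 ⟨ζ, hζ, hj, h (ht ζ hζ).1⟩)
        · exact Or.inr (mem_iUnion₂.2 ⟨j.2, hj', hj, rfl⟩)
  -- the neighbourhoods
  have hN : ∀ d ∈ D, ∃ (s s' : Finset (Σ n, L n)) (t t' : Finset Ordinal.{0})
      (F F' : Finset (Qt δ G)), (InU s d.1.1 ∧ InW δ G t d.1.1 ∧ d.1 ∉ F) ∧
      (InU s' d.2.1 ∧ InW δ G t' d.2.1 ∧ d.2 ∉ F') ∧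
      ∀ j ∈ D, InU s j.1.1 → InW δ G t j.1.1 → j.1 ∉ F → InU s' j.2.1 → InW δ G t' j.2.1 →
        j.2 ∉ F' → j = d := by
    intro d hd
    obtain ⟨U, hUo, hdU, hU'⟩ := hD d hd
    obtain ⟨u, v, hu, hv, hpu, hqv, huv⟩ := isOpen_prod_iff.1 hUo d.1 d.2 hdU
    obtain ⟨s, t, F, h1, h2, h3, h4⟩ := isOpen_iff'.1 hu d.1 hpu
    obtain ⟨s', t', F', h1', h2', h3', h4'⟩ := isOpen_iff'.1 hv d.2 hqv
    exact ⟨s, s', t, t', F, F', ⟨h1, h2, h3⟩, ⟨h1', h2', h3'⟩,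
      fun j hj x1 x2 x3 y1 y2 y3 => hU' j hj (huv ⟨h4 j.1 x1 x2 x3, h4' j.2 y1 y2 y3⟩)⟩
  choose! s s' t t' F F' hs hs' hq using hN
  -- pigeonhole
  obtain ⟨c0, hc0⟩ : ∃ c0 : Finset (Σ n, L n) × Finset (Σ n, L n),
      ¬ Bd {i ∈ D' | (s i, s' i) = c0} := by
    by_contra h
    push Not at h
    refine hD'1 ((Bd.iUnion hG hU (sm_pair hL) _ h).mono ?_)
    intro i hi
    exact mem_iUnion.2 ⟨(s i, s' i), hi, rfl⟩
  obtain ⟨i, hi⟩ : {i ∈ D' | (s i, s' i) = c0}.Nonempty := by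
    by_contra h
    rw [not_nonempty_iff_eq_empty] at h
    rw [h] at hc0
    exact hc0 hempty
  have hiD : i ∈ D := hD'D hi.1
  have hpt : ∀ f : Qt δ G, Bd {j : Qt δ G × Qt δ G | j.1 = f} := by
    intro f
    obtain ⟨ξ, hξ, hlo⟩ := f.2
    refine ⟨ξ, hξ, ?_⟩
    rintro j hj
    rw [show j.1 = f from hj]
    exact hlo
  have h1 : Bd {j : Qt δ G × Qt δ G | j.1 = i.1} := hpt i.1
  have h2 : Bd (⋃ f ∈ F i, {j : Qt δ G × Qt δ G | j.1 = f}) := Bd.biUnion hG hδ _ _ fun f _ => hpt f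
  have h3 : Bd (⋃ ζ ∈ t i, {j : Qt δ G × Qt δ G | Lo G ζ j.1.1}) := by
    refine Bd.biUnion hG hδ _ _ fun ζ hζ => ?_
    exact ⟨ζ, ((hs i hiD).2.1 ζ hζ).1, fun j hj => hj⟩
  have h4 := hD'2 i hi.1 (t' i) (F' i) (hs' i hiD).2.1 (hs' i hiD).2.2
  apply hc0
  refine (Bd.union hG (Bd.union hG h1 h2) (Bd.union hG h3 h4)).mono ?_
  intro j hj
  by_contra hjn
  simp only [mem_union, not_or] at hjn
  obtain ⟨⟨n1, n2⟩, n3, n4⟩ := hjn
  have hsj : s j = s i := congrArg Prod.fst (hj.2.trans hi.2.symm)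
  have hsj' : s' j = s' i := congrArg Prod.snd (hj.2.trans hi.2.symm)
  have hjD : j ∈ D := hD'D hj.1
  have h5 : InW δ G (t' i) j.2.1 ∧ j.2 ∉ F' i := by
    by_contra h
    exact n4 ⟨hj.1, h⟩
  have h6 : j = i := by
    refine hq i hiD j hjD ?_ ?_ ?_ ?_ h5.1 h5.2
    · rw [← hsj]; exact (hs j hjD).1
    · intro ζ hζ
      refine ⟨((hs i hiD).2.1 ζ hζ).1, fun hlo => n3 (mem_iUnion₂.2 ⟨ζ, hζ, hlo⟩)⟩
    · intro hF
      exact n2 (mem_iUnion₂.2 ⟨j.1, hF, rfl⟩)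
    · rw [← hsj']; exact (hs' j hjD).1
  exact n1 (congrArg Prod.fst h6)

/-- **Discrete subsets of the square have bounded rank.** -/
theorem bounded (hL : Big L)
    (hG : ∀ ξ < δ, ∀ η < ξ, ∀ᶠ n in atTop, G η n < G ξ n)
    (hU : ∀ h : ∀ n, L n, ∃ ξ < δ, ∃ᶠ n in atTop, h n ≤ G ξ n)
    (D : Set (Qt δ G × Qt δ G)) (hD : Disc D) :
    ∃ ξ < δ, ∀ d ∈ D, Lo G ξ d.1.1 ∧ Lo G ξ d.2.1 := by
  obtain ⟨ρ, h1, h2⟩ := bounded_fst hL hG hU D hD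
  have hD' : Disc (Prod.swap ⁻¹' D) := by
    intro d hd
    obtain ⟨U, hUo, hdU, hU'⟩ := hD _ hd
    refine ⟨Prod.swap ⁻¹' U, hUo.preimage continuous_swap, hdU, fun d' hd' hdU' => ?_⟩
    exact Prod.swap_injective (hU' _ hd' hdU')
  obtain ⟨ρ', h1', h2'⟩ := bounded_fst hL hG hU _ hD'
  refine ⟨max ρ ρ', max_lt h1 h1', fun d hd => ⟨?_, ?_⟩⟩
  · exact Lo.mono hG (le_max_left _ _) (max_lt h1 h1') (h2 d hd)
  · refine Lo.mono hG (le_max_right _ _) (max_lt h1 h1') (h2' d.swap ?_)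
    simpa using hd

end Pool.Agent.X182.CD
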