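import Pool.Agent.H960R3.DL3

/-!
# A T₁ space which is not Lindelöf, with a discretely Lindelöf co-diagonal
-/

set_option autoImplicit false

open Set Topology Cardinal Filter

namespace Pool.Agent.X182.CD

open Pool.Agent.H960R3.DL

variable {L : ℕ → Type} [∀ n, LinearOrder (L n)]

/-- The point set: vectors of some rank below `δ`. -/
def Qt (δ : Ordinal.{0}) (G : Ordinal.{0} → ∀ n, L n) : Type :=
  {x : Vec L // ∃ ξ < δ, Lo G ξ x}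

instance tops (δ : Ordinal.{0}) (G : Ordinal.{0} → ∀ n, L n) : TopologicalSpace (Qt δ G) where
  IsOpen O := ∀ p ∈ O, ∃ (s : Finset (Σ n, L n)) (t : Finset Ordinal.{0}) (F : Finset (Qt δ G)),
    InU s p.1 ∧ InW δ G t p.1 ∧ p ∉ F ∧
      ∀ q : Qt δ G, InU s q.1 → InW δ G t q.1 → q ∉ F → q ∈ O
  isOpen_univ := fun p _ => ⟨∅, ∅, ∅, by simp [InU], by simp [InW], by simp, by simp⟩
  isOpen_inter := by
    classical
    intro O O' h h' p hp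
    obtain ⟨s, t, F, h1, h2, h3, h4⟩ := h p hp.1
    obtain ⟨s', t', F', h1', h2', h3', h4'⟩ := h' p hp.2
    refine ⟨s ∪ s', t ∪ t', F ∪ F', ?_, ?_, ?_, ?_⟩
    · intro a ha
      rcases Finset.mem_union.1 ha with ha | ha
      · exact h1 a ha
      · exact h1' a ha
    · intro a ha
      rcases Finset.mem_union.1 ha with ha | ha
      · exact h2 a ha
      · exact h2' a ha
    · simp [h3, h3']
    · intro q hq1 hq2 hq3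
      rw [Finset.mem_union, not_or] at hq3
      exact ⟨h4 q (fun a ha => hq1 a (Finset.mem_union_left _ ha))
        (fun a ha => hq2 a (Finset.mem_union_left _ ha)) hq3.1,
        h4' q (fun a ha => hq1 a (Finset.mem_union_right _ ha))
        (fun a ha => hq2 a (Finset.mem_union_right _ ha)) hq3.2⟩
  isOpen_sUnion := by
    intro S hS p hp
    obtain ⟨O, hO, hpO⟩ := hp
    obtain ⟨s, t, F, h1, h2, h3, h4⟩ := hS O hO p hpO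
    exact ⟨s, t, F, h1, h2, h3, fun q a b c => ⟨O, hO, h4 q a b c⟩⟩

variable {δ : Ordinal.{0}} {G : Ordinal.{0} → ∀ n, L n}

theorem isOpen_iff' {O : Set (Qt δ G)} : IsOpen O ↔
    ∀ p ∈ O, ∃ (s : Finset (Σ n, L n)) (t : Finset Ordinal.{0}) (F : Finset (Qt δ G)),
    InU s p.1 ∧ InW δ G t p.1 ∧ p ∉ F ∧
      ∀ q : Qt δ G, InU s q.1 → InW δ G t q.1 → q ∉ F → q ∈ O := Iff.rfl

instance t1 : T1Space (Qt δ G) := by
  refine ⟨fun p => ⟨?_⟩⟩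
  rw [isOpen_iff']
  intro q hq
  refine ⟨∅, ∅, {p}, by simp [InU], by simp [InW], by simpa using hq, ?_⟩
  intro r _ _ hr
  simpa using hr

theorem isOpen_U (n : ℕ) (a : L n) : IsOpen {p : Qt δ G | p.1 n < (a : WithTop (L n))} := by
  rw [isOpen_iff']
  intro p hp
  refine ⟨{⟨n, a⟩}, ∅, ∅, ?_, by simp [InW], by simp, ?_⟩
  · intro c hc
    rw [Finset.mem_singleton] at hc
    subst hc
    exact hp
  · intro q hq _ _
    exact hq ⟨n, a⟩ (by simp)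

theorem isClosed_Lo {ξ : Ordinal.{0}} (hξ : ξ < δ) : IsClosed {p : Qt δ G | Lo G ξ p.1} := by
  refine ⟨?_⟩
  rw [isOpen_iff']
  intro p hp
  refine ⟨∅, {ξ}, ∅, by simp [InU], ?_, by simp, ?_⟩
  · intro c hc
    rw [Finset.mem_singleton] at hc
    subst hc
    exact ⟨hξ, hp⟩
  · intro q _ hq _
    exact (hq ξ (by simp)).2

/-! ### The points `xA` -/

omit [∀ n, LinearOrder (L n)] in
theorem xA_ne (ξ ζ : Ordinal.{0}) {A B : Set ℕ} (h : A ≠ B) : xA G ξ A ≠ xA G ζ B := by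
  intro he
  apply h
  ext n
  have h1 := congrFun he n
  simp only [xA] at h1
  by_cases hA : n ∈ A <;> by_cases hB : n ∈ B <;> simp [hA, hB] at h1 ⊢

theorem exists_two {A B : Set ℕ} (hA : A.Infinite) (hB : B.Infinite) :
    ∃ A' ⊆ A, ∃ B' ⊆ B, A'.Infinite ∧ B'.Infinite ∧ A' ≠ B' := by
  by_cases h : A = B
  · subst h
    obtain ⟨a, ha⟩ := hA.nonempty
    refine ⟨A, Subset.rfl, A \ {a}, sdiff_subset, hA, hA.sdiff (finite_singleton a), ?_⟩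
    intro h
    rw [h] at ha
    exact ha.2 rfl
  · exact ⟨A, Subset.rfl, B, Subset.rfl, hA, hB, h⟩

omit [∀ n, LinearOrder (L n)] in
theorem exists_xA_ne (ξ : Ordinal.{0}) {A : Set ℕ} (hA : A.Infinite) (f : Vec L) :
    ∃ A' ⊆ A, A'.Infinite ∧ xA G ξ A' ≠ f := by
  obtain ⟨A', h1, B', h2, h3, h4, h5⟩ := exists_two hA hA
  by_cases h : xA G ξ A' = f
  · exact ⟨B', h2, h4, fun h' => xA_ne ξ ξ h5 (h.trans h'.symm)⟩
  · exact ⟨A', h1, h3, h⟩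

theorem dom_sub {ξ : Ordinal.{0}} {A : Set ℕ} {s : Finset (Σ n, L n)} (hs : InU s (xA G ξ A)) :
    ∀ c ∈ s, c.1 ∈ A := by
  intro c hc
  by_contra hcA
  have h1 := hs c hc
  simp [xA, hcA] at h1

/-- The neighbourhood of `xA G ξ A` contains every vector which is small on the domain. -/
theorem inU_of_dom {ξ : Ordinal.{0}} {A B : Set ℕ} {s r : Finset (Σ n, L n)} {x : Vec L}
    (hs : InU s (xA G ξ A)) (hr : InU r (xA G ξ B))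
    (hd : s.image Sigma.fst = r.image Sigma.fst)
    (hx : ∀ n ∈ A, x n ≤ (G ξ n : WithTop (L n))) : InU r x := by
  intro c hc
  have h1 : c.1 ∈ s.image Sigma.fst := by
    rw [hd]
    exact Finset.mem_image_of_mem _ hc
  obtain ⟨c', hc', he⟩ := Finset.mem_image.1 h1
  have h2 : c.1 ∈ A := by
    rw [← he]
    exact dom_sub hs c' hc'
  have h3 := hr c hc
  have h4 : c.1 ∈ B := dom_sub hr c hc
  simp only [xA, h4, if_true] at h3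
  exact (hx _ h2).trans_lt h3

theorem lt_of_inW (hG : ∀ ξ < δ, ∀ η < ξ, ∀ᶠ n in atTop, G η n < G ξ n) {ξ : Ordinal.{0}}
    {A : Set ℕ} (hA : A.Infinite) {t : Finset Ordinal.{0}} (ht : InW δ G t (xA G ξ A)) :
    ∀ ζ ∈ t, ζ < ξ ∧ ζ < δ := by
  intro ζ hζ
  obtain ⟨h1, h2⟩ := ht ζ hζ
  refine ⟨?_, h1⟩
  by_contra h3
  rw [not_lt] at h3
  exact h2 (Lo.mono hG h3 h1 (lo_xA G ξ hA))

/-- Sections of the co-diagonal. -/
theorem cov_sec (hG : ∀ ξ < δ, ∀ η < ξ, ∀ᶠ n in atTop, G η n < G ξ n)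
    (𝒪 : Set (Set (Qt δ G))) (hO : ∀ O ∈ 𝒪, IsOpen O) (f : Qt δ G) (ξ : Ordinal.{0}) (hξ : ξ < δ)
    (hc : {p : Qt δ G | Lo G ξ p.1 ∧ p ≠ f} ⊆ ⋃₀ 𝒪) :
    Cov 𝒪 {p : Qt δ G | Lo G ξ p.1 ∧ p ≠ f} := by
  classical
  induction ξ using WellFoundedLT.induction with
  | ind ξ ih =>
  have h0 : ∀ A : Set ℕ, (A.Infinite ∧ xA G ξ A ≠ f.1) → ∃ (O : Set (Qt δ G))
      (s : Finset (Σ n, L n)) (t : Finset Ordinal.{0}) (F : Finset (Qt δ G)), O ∈ 𝒪 ∧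
        InU s (xA G ξ A) ∧ InW δ G t (xA G ξ A) ∧
        ∀ q : Qt δ G, InU s q.1 → InW δ G t q.1 → q ∉ F → q ∈ O := by
    intro A hA
    let p : Qt δ G := ⟨xA G ξ A, ξ, hξ, lo_xA G ξ hA.1⟩
    obtain ⟨O, hO1, hpO⟩ := hc (show p ∈ {p : Qt δ G | Lo G ξ p.1 ∧ p ≠ f} from
      ⟨lo_xA G ξ hA.1, fun h => hA.2 (congrArg Subtype.val h)⟩)
    obtain ⟨s, t, F, h1, h2, -, h4⟩ := isOpen_iff'.1 (hO O hO1) p hpO
    exact ⟨O, s, t, F, hO1, h1, h2, h4⟩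
  choose! Oa sa ta Fa hOa hsa hta hqa using h0
  let dom : Set ℕ → Finset ℕ := fun A => (sa A).image Sigma.fst
  let D : Set (Finset ℕ) := {d | ∃ A : Set ℕ, (A.Infinite ∧ xA G ξ A ≠ f.1) ∧ dom A = d}
  have hD : ∀ d ∈ D, ∃ A : Set ℕ, (A.Infinite ∧ xA G ξ A ≠ f.1) ∧ dom A = d := fun d hd => hd
  choose! Ad hAd hAd' using hD
  have hsub : {p : Qt δ G | Lo G ξ p.1 ∧ p ≠ f} ⊆ ⋃ d ∈ D, (Oa (Ad d) ∪
      ((⋃ ζ ∈ (ta (Ad d) : Set Ordinal.{0}), {p : Qt δ G | Lo G ζ p.1 ∧ p ≠ f}) ∪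
        ((Fa (Ad d) : Set (Qt δ G)) ∩ {p : Qt δ G | Lo G ξ p.1 ∧ p ≠ f}))) := by
    intro p hp
    obtain ⟨A, hAp, hA1, hA2⟩ := exists_xA_ne (G := G) ξ
      (A := {n | p.1 n ≤ (G ξ n : WithTop (L n))}) (Nat.frequently_atTop_iff_infinite.1 hp.1) f.1
    have hd : dom A ∈ D := ⟨A, ⟨hA1, hA2⟩, rfl⟩
    refine mem_iUnion₂.2 ⟨dom A, hd, ?_⟩
    have hB := hAd _ hd
    have hB' := hAd' _ hd
    have hU : InU (sa (Ad (dom A))) p.1 :=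
      inU_of_dom (hsa A ⟨hA1, hA2⟩) (hsa _ hB) hB'.symm (fun n hn => hAp hn)
    by_cases hW : InW δ G (ta (Ad (dom A))) p.1
    · by_cases hF : p ∈ Fa (Ad (dom A))
      · exact Or.inr (Or.inr ⟨hF, hp⟩)
      · exact Or.inl (hqa _ hB p hU hW hF)
    · refine Or.inr (Or.inl ?_)
      rw [InW] at hW
      push Not at hW
      obtain ⟨ζ, hζ, h⟩ := hW
      exact mem_iUnion₂.2 ⟨ζ, hζ, h (hta _ hB ζ hζ).1, hp.2⟩
  refine Cov.mono ?_ hsub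
  refine Cov.biUnion (to_countable D) fun d hd => ?_
  have hB := hAd _ hd
  refine Cov.union (Cov.of_mem (hOa _ hB)) (Cov.union ?_ ?_)
  · refine Cov.biUnion (Finset.countable_toSet _) fun ζ hζ => ?_
    obtain ⟨hlt, h1⟩ := lt_of_inW hG hB.1 (hta _ hB) ζ hζ
    exact ih ζ hlt h1 (fun p hp => hc ⟨Lo.mono hG hlt.le hξ hp.1, hp.2⟩)
  · have hfin : ((Fa (Ad d) : Set (Qt δ G)) ∩ {p : Qt δ G | Lo G ξ p.1 ∧ p ≠ f}).Finite :=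
      (Finset.finite_toSet _).inter_of_left _
    rw [← biUnion_of_singleton ((Fa (Ad d) : Set (Qt δ G)) ∩ {p : Qt δ G | Lo G ξ p.1 ∧ p ≠ f})]
    refine Cov.biUnion hfin.countable fun q hq => ?_
    obtain ⟨O, hO1, hqO⟩ := hc hq.2
    exact (Cov.of_mem hO1).mono (singleton_subset_iff.2 hqO)

/-- a family which covers countably after taking preimages covers countably -/
theorem Cov.of_preimage {X Y : Type*} {𝒪 : Set (Set Y)} (g : X → Y) {S : Set X}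
    (h : Cov ((fun O => g ⁻¹' O) '' 𝒪) S) : Cov 𝒪 (g '' S) := by
  obtain ⟨V, h1, h2, h3⟩ := h
  have h4 : ∀ v ∈ V, ∃ O ∈ 𝒪, g ⁻¹' O = v := fun v hv => h1 hv
  choose! c hc hc' using h4
  refine ⟨c '' V, ?_, h2.image c, ?_⟩
  · rintro _ ⟨v, hv, rfl⟩
    exact hc v hv
  · rintro _ ⟨x, hx, rfl⟩
    obtain ⟨v, hv, hxv⟩ := h3 hx
    refine ⟨c v, mem_image_of_mem c hv, ?_⟩
    rw [← hc' v hv] at hxv
    exact hxv

/-- pieces of the co-diagonal -/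
def RR (δ : Ordinal.{0}) (G : Ordinal.{0} → ∀ n, L n) (ξ ζ : Ordinal.{0}) :
    Set (Qt δ G × Qt δ G) :=
  {z | Lo G ξ z.1.1 ∧ Lo G ζ z.2.1 ∧ z.1 ≠ z.2}

theorem cov_left (hG : ∀ ξ < δ, ∀ η < ξ, ∀ᶠ n in atTop, G η n < G ξ n)
    (𝒪 : Set (Set (Qt δ G × Qt δ G))) (hO : ∀ O ∈ 𝒪, IsOpen O) (f : Qt δ G) (ζ : Ordinal.{0})
    (hζ : ζ < δ) (hc : {z : Qt δ G × Qt δ G | z.1 = f ∧ Lo G ζ z.2.1 ∧ z.1 ≠ z.2} ⊆ ⋃₀ 𝒪) :
    Cov 𝒪 {z : Qt δ G × Qt δ G | z.1 = f ∧ Lo G ζ z.2.1 ∧ z.1 ≠ z.2} := by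
  have h := cov_sec hG ((fun O => (fun q : Qt δ G => (f, q)) ⁻¹' O) '' 𝒪) (by
    rintro _ ⟨O, hO1, rfl⟩
    exact (hO O hO1).preimage (by fun_prop)) f ζ hζ (by
    intro p hp
    obtain ⟨O, hO1, hO2⟩ := hc (show (f, p) ∈
      {z : Qt δ G × Qt δ G | z.1 = f ∧ Lo G ζ z.2.1 ∧ z.1 ≠ z.2} from
      ⟨rfl, hp.1, fun h => hp.2 h.symm⟩)
    exact ⟨_, ⟨O, hO1, rfl⟩, hO2⟩)
  refine (Cov.of_preimage _ h).mono ?_
  rintro ⟨a, b⟩ ⟨h1, h2, h3⟩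
  simp only at h1
  subst h1
  exact ⟨b, ⟨h2, fun h => h3 h.symm⟩, rfl⟩

theorem cov_right (hG : ∀ ξ < δ, ∀ η < ξ, ∀ᶠ n in atTop, G η n < G ξ n)
    (𝒪 : Set (Set (Qt δ G × Qt δ G))) (hO : ∀ O ∈ 𝒪, IsOpen O) (f : Qt δ G) (ξ : Ordinal.{0})
    (hξ : ξ < δ) (hc : {z : Qt δ G × Qt δ G | z.2 = f ∧ Lo G ξ z.1.1 ∧ z.1 ≠ z.2} ⊆ ⋃₀ 𝒪) :
    Cov 𝒪 {z : Qt δ G × Qt δ G | z.2 = f ∧ Lo G ξ z.1.1 ∧ z.1 ≠ z.2} := by
  have h := cov_sec hG ((fun O => (fun q : Qt δ G => (q, f)) ⁻¹' O) '' 𝒪) (by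
    rintro _ ⟨O, hO1, rfl⟩
    exact (hO O hO1).preimage (by fun_prop)) f ξ hξ (by
    intro p hp
    obtain ⟨O, hO1, hO2⟩ := hc (show (p, f) ∈
      {z : Qt δ G × Qt δ G | z.2 = f ∧ Lo G ξ z.1.1 ∧ z.1 ≠ z.2} from
      ⟨rfl, hp.1, hp.2⟩)
    exact ⟨_, ⟨O, hO1, rfl⟩, hO2⟩)
  refine (Cov.of_preimage _ h).mono ?_
  rintro ⟨a, b⟩ ⟨h1, h2, h3⟩
  simp only at h1
  subst h1
  exact ⟨a, ⟨h2, h3⟩, rfl⟩

theorem cov_prod (hG : ∀ ξ < δ, ∀ η < ξ, ∀ᶠ n in atTop, G η n < G ξ n)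
    (𝒪 : Set (Set (Qt δ G × Qt δ G))) (hO : ∀ O ∈ 𝒪, IsOpen O) :
    ∀ ξ < δ, ∀ ζ < δ, RR δ G ξ ζ ⊆ ⋃₀ 𝒪 → Cov 𝒪 (RR δ G ξ ζ) := by
  classical
  intro ξ
  induction ξ using WellFoundedLT.induction with
  | ind ξ ihξ =>
  intro hξ ζ
  induction ζ using WellFoundedLT.induction with
  | ind ζ ihζ =>
  intro hζ hc
  have h0 : ∀ P : Set ℕ × Set ℕ, (P.1.Infinite ∧ P.2.Infinite ∧ P.1 ≠ P.2) →
      ∃ (O : Set (Qt δ G × Qt δ G)) (s s' : Finset (Σ n, L n)) (t t' : Finset Ordinal.{0})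
        (F F' : Finset (Qt δ G)), O ∈ 𝒪 ∧
        (InU s (xA G ξ P.1) ∧ InW δ G t (xA G ξ P.1)) ∧
        (InU s' (xA G ζ P.2) ∧ InW δ G t' (xA G ζ P.2)) ∧
        ∀ p q : Qt δ G, InU s p.1 → InW δ G t p.1 → p ∉ F → InU s' q.1 → InW δ G t' q.1 →
          q ∉ F' → (p, q) ∈ O := by
    rintro ⟨A, B⟩ ⟨hA, hB, hAB⟩
    let p : Qt δ G := ⟨xA G ξ A, ξ, hξ, lo_xA G ξ hA⟩
    let q : Qt δ G := ⟨xA G ζ B, ζ, hζ, lo_xA G ζ hB⟩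
    obtain ⟨O, hO1, hpO⟩ := hc (show (p, q) ∈ RR δ G ξ ζ from
      ⟨lo_xA G ξ hA, lo_xA G ζ hB, fun h => xA_ne ξ ζ hAB (congrArg Subtype.val h)⟩)
    obtain ⟨u, v, hu, hv, hpu, hqv, huv⟩ := isOpen_prod_iff.1 (hO O hO1) p q hpO
    obtain ⟨s, t, F, h1, h2, -, h4⟩ := isOpen_iff'.1 hu p hpu
    obtain ⟨s', t', F', h1', h2', -, h4'⟩ := isOpen_iff'.1 hv q hqv
    exact ⟨O, s, s', t, t', F, F', hO1, ⟨h1, h2⟩, ⟨h1', h2'⟩,
      fun a b x1 x2 x3 y1 y2 y3 => huv ⟨h4 a x1 x2 x3, h4' b y1 y2 y3⟩⟩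
  choose! Oa sa sb ta tb Fa Fb hOa hsa hsb hqa using h0
  let dom : Set ℕ × Set ℕ → Finset ℕ × Finset ℕ :=
    fun A => ((sa A).image Sigma.fst, (sb A).image Sigma.fst)
  let D : Set (Finset ℕ × Finset ℕ) :=
    {d | ∃ P : Set ℕ × Set ℕ, (P.1.Infinite ∧ P.2.Infinite ∧ P.1 ≠ P.2) ∧ dom P = d}
  have hD : ∀ d ∈ D, ∃ P : Set ℕ × Set ℕ, (P.1.Infinite ∧ P.2.Infinite ∧ P.1 ≠ P.2) ∧ dom P = d :=
    fun d hd => hd
  choose! Ad hAd hAd' using hD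
  have hsub : RR δ G ξ ζ ⊆ ⋃ d ∈ D, (Oa (Ad d) ∪
      (((⋃ η ∈ (ta (Ad d) : Set Ordinal.{0}), RR δ G η ζ) ∪
        (⋃ η ∈ (tb (Ad d) : Set Ordinal.{0}), RR δ G ξ η)) ∪
        ((⋃ f ∈ (Fa (Ad d) : Set (Qt δ G)) ∩ {p | Lo G ξ p.1},
            {z : Qt δ G × Qt δ G | z.1 = f ∧ Lo G ζ z.2.1 ∧ z.1 ≠ z.2}) ∪
          (⋃ f ∈ (Fb (Ad d) : Set (Qt δ G)) ∩ {p | Lo G ζ p.1},
            {z : Qt δ G × Qt δ G | z.2 = f ∧ Lo G ξ z.1.1 ∧ z.1 ≠ z.2})))) := by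
    rintro ⟨p, q⟩ ⟨hp, hq, hpq⟩
    obtain ⟨A, hAp, B, hBq, hA, hB, hAB⟩ := exists_two
      (A := {n | p.1 n ≤ (G ξ n : WithTop (L n))}) (B := {n | q.1 n ≤ (G ζ n : WithTop (L n))})
      (Nat.frequently_atTop_iff_infinite.1 hp) (Nat.frequently_atTop_iff_infinite.1 hq)
    have hP : (A, B).1.Infinite ∧ (A, B).2.Infinite ∧ (A, B).1 ≠ (A, B).2 := ⟨hA, hB, hAB⟩
    have hd : dom (A, B) ∈ D := ⟨(A, B), hP, rfl⟩
    refine mem_iUnion₂.2 ⟨dom (A, B), hd, ?_⟩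
    have hQ := hAd _ hd
    have hQ' := hAd' _ hd
    have hU1 : InU (sa (Ad (dom (A, B)))) p.1 :=
      inU_of_dom (hsa _ hP).1 (hsa _ hQ).1 (congrArg Prod.fst hQ').symm (fun n hn => hAp hn)
    have hU2 : InU (sb (Ad (dom (A, B)))) q.1 :=
      inU_of_dom (hsb _ hP).1 (hsb _ hQ).1 (congrArg Prod.snd hQ').symm (fun n hn => hBq hn)
    by_cases hW1 : InW δ G (ta (Ad (dom (A, B)))) p.1
    · by_cases hW2 : InW δ G (tb (Ad (dom (A, B)))) q.1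
      · by_cases hF1 : p ∈ Fa (Ad (dom (A, B)))
        · exact Or.inr (Or.inr (Or.inl (mem_iUnion₂.2 ⟨p, ⟨hF1, hp⟩, rfl, hq, hpq⟩)))
        · by_cases hF2 : q ∈ Fb (Ad (dom (A, B)))
          · exact Or.inr (Or.inr (Or.inr (mem_iUnion₂.2 ⟨q, ⟨hF2, hq⟩, rfl, hp, hpq⟩)))
          · exact Or.inl (hqa _ hQ p q hU1 hW1 hF1 hU2 hW2 hF2)
      · rw [InW] at hW2
        push Not at hW2
        obtain ⟨η, hη, h⟩ := hW2
        exact Or.inr (Or.inl (Or.inr (mem_iUnion₂.2 ⟨η, hη, hp, h ((hsb _ hQ).2 η hη).1, hpq⟩)))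
    · rw [InW] at hW1
      push Not at hW1
      obtain ⟨η, hη, h⟩ := hW1
      exact Or.inr (Or.inl (Or.inl (mem_iUnion₂.2 ⟨η, hη, h ((hsa _ hQ).2 η hη).1, hq, hpq⟩)))
  refine Cov.mono ?_ hsub
  refine Cov.biUnion (to_countable D) fun d hd => ?_
  have hB := hAd _ hd
  refine Cov.union (Cov.of_mem (hOa _ hB)) (Cov.union (Cov.union ?_ ?_) (Cov.union ?_ ?_))
  · refine Cov.biUnion (Finset.countable_toSet _) fun η hη => ?_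
    obtain ⟨hlt, h1⟩ := lt_of_inW hG hB.1 (hsa _ hB).2 η hη
    exact ihξ η hlt h1 ζ hζ
      (fun p hp => hc ⟨Lo.mono hG hlt.le hξ hp.1, hp.2.1, hp.2.2⟩)
  · refine Cov.biUnion (Finset.countable_toSet _) fun η hη => ?_
    obtain ⟨hlt, h1⟩ := lt_of_inW hG hB.2.1 (hsb _ hB).2 η hη
    exact ihζ η hlt h1
      (fun p hp => hc ⟨hp.1, Lo.mono hG hlt.le hζ hp.2.1, hp.2.2⟩)
  · refine Cov.biUnion ((Finset.finite_toSet _).inter_of_left _).countable fun f hf => ?_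
    refine cov_left hG 𝒪 hO f ζ hζ (Subset.trans ?_ hc)
    rintro z ⟨h1, h2, h3⟩
    exact ⟨by rw [h1]; exact hf.2, h2, h3⟩
  · refine Cov.biUnion ((Finset.finite_toSet _).inter_of_left _).countable fun f hf => ?_
    refine cov_right hG 𝒪 hO f ξ hξ (Subset.trans ?_ hc)
    rintro z ⟨h1, h2, h3⟩
    exact ⟨h2, by rw [h1]; exact hf.2, h3⟩

end Pool.Agent.X182.CD
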